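import Pool.Agent.H51.CK.Basic

/-!
# [H51 CK Coinit] The finite coinitial set of witness nodes
-/

set_option autoImplicit false
open Topology Set Filter

namespace Pool.Agent.H51.CK

variable {X : Type*} [MetricSpace X]

lemma br_succ (b : ℕ → ℕ) (k : ℕ) : br b (k + 1) = br b k ++ [b k] := by
  simp [br, List.range_succ]

lemma take_eq_of_prefix {l l' : List ℕ} (h : l <+: l') {i : ℕ} (hi : i ≤ l.length) :
    l'.take i = l.take i := by
  obtain ⟨t, rfl⟩ := h
  exact List.take_append_of_le_length hi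

/-- Shrinking of the sets of a branch. -/
theorem exists_limit [CompleteSpace X] {x : ℕ → X} (hx : DenseRange x) (b : ℕ → ℕ)
    (hne : ∀ k, (C x (br b k)).Nonempty) :
    ∃ z : X, ∀ O ∈ 𝓝 z, ∃ k0, ∀ k ≥ k0, C x (br b k) ⊆ O := by
  have hd : ∀ k, ∀ z ∈ C x (br b (k + 1)), dist z (x (b k)) < (1 / 2 : ℝ) ^ k := by
    intro k z hz
    have := hz k (by simp)
    rwa [getElem_br] at this
  have hdd : ∀ k, ∀ z ∈ C x (br b (k + 1)), ∀ w ∈ C x (br b (k + 1)),
      dist z w < 2 * (1 / 2 : ℝ) ^ k := by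
    intro k z hz w hw
    have h1 := hd k z hz
    have h2 := hd k w hw
    have h3 := dist_triangle_right z w (x (b k))
    linarith
  have hym : ∀ k, m x (br b k) ∈ C x (br b k) := fun k => m_mem hx (hne k)
  have hcau : CauchySeq (fun k => m x (br b (k + 1))) := by
    refine cauchySeq_of_le_geometric (1 / 2 : ℝ) 2 (by norm_num) fun k => ?_
    exact (hdd k _ (hym _) _ (C_mono_prefix (br_prefix b (by omega)) (hym (k + 1 + 1)))).le
  obtain ⟨z, hz⟩ := cauchySeq_tendsto_of_complete hcau
  refine ⟨z, fun O hO => ?_⟩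
  obtain ⟨ε, hε, hball⟩ := Metric.mem_nhds_iff.1 hO
  have h1 : ∀ᶠ k in atTop, dist (m x (br b (k + 1))) z < ε / 2 :=
    (Metric.tendsto_atTop.1 hz (ε / 2) (by positivity)).imp (fun N hN k hk => hN k hk) |>
      fun ⟨N, hN⟩ => eventually_atTop.2 ⟨N, hN⟩
  have h2 : ∀ᶠ k : ℕ in atTop, (1 / 2 : ℝ) ^ k < ε / 4 :=
    (tendsto_pow_atTop_nhds_zero_of_lt_one (by norm_num) (by norm_num : (1 / 2 : ℝ) < 1)).eventually
      (gt_mem_nhds (by positivity))
  obtain ⟨N, hN1, hN2⟩ := (h1.and h2).exists
  refine ⟨N + 1, fun k hk w hw => hball ?_⟩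
  have hw' : w ∈ C x (br b (N + 1)) := C_mono_prefix (br_prefix b hk) hw
  have h3 := hdd N w hw' _ (hym (N + 1))
  have h4 := dist_triangle w (m x (br b (N + 1))) z
  rw [Metric.mem_ball]
  linarith

theorem exists_coinitial [CompleteSpace X] {x : ℕ → X} (hx : DenseRange x) (g : C(X, ℝ)) :
    ∃ F : Finset (List ℕ), (∀ a ∈ F, W x g a) ∧
      ∀ φ : ℕ → ℕ, Monotone φ → (∃ a ∈ T x φ, W x g a) → ∃ a ∈ F, a ∈ T x φ := by
  classical
  by_contra hcon
  push Not at hcon
  have key : ∀ j : ℕ, ∃ (φ : ℕ → ℕ) (a : List ℕ), Monotone φ ∧ a ∈ T x φ ∧ W x g a ∧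
      ∀ u : List ℕ, W x g u → Encodable.encode u ≤ j → u ∉ T x φ := by
    intro j
    let F : Finset (List ℕ) := ((Finset.range (j + 1)).image
      (fun l => ((Encodable.decode l : Option (List ℕ)).getD []))).filter (fun u => W x g u)
    obtain ⟨φ, hφ, ⟨a, ha, hW⟩, h⟩ := hcon F (fun a ha => (Finset.mem_filter.1 ha).2)
    refine ⟨φ, a, hφ, ha, hW, fun u hu hj => h u ?_⟩
    exact Finset.mem_filter.2 ⟨Finset.mem_image.2 ⟨Encodable.encode u,
      Finset.mem_range.2 (by omega), by simp⟩, hu⟩
  choose φ a hφ haT haW hex using key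
  have step : ∀ l : List ℕ, {j | l <+: a j}.Infinite → ∃ v, {j | l ++ [v] <+: a j}.Infinite := by
    intro l hl
    obtain ⟨j0, hj0⟩ := hl.nonempty
    by_contra hfin
    push Not at hfin
    refine hl ?_
    have hsub : {j | l <+: a j} ⊆ {j | j < max (Encodable.encode (a j0)) (Encodable.encode l)} ∪
        ⋃ v ∈ Finset.range ((a j0).sum + 1), {j | l ++ [v] <+: a j} := by
      intro j hj
      by_cases hlt : j < max (Encodable.encode (a j0)) (Encodable.encode l)
      · exact Or.inl hlt
      · right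
        rw [not_lt, max_le_iff] at hlt
        have h1 : a j0 ∉ T x (φ j) := hex j _ (haW j0) hlt.1
        have h2 : ∃ (r : ℕ) (hr : r < (a j0).length), φ j r < (a j0)[r] := by
          by_contra hno
          push Not at hno
          exact h1 ⟨(haT j0).1, hno⟩
        obtain ⟨r, hr, hlt2⟩ := h2
        have hlr : l.length ≤ r := by
          by_contra hrl
          push Not at hrl
          have e1 : l[r] = (a j0)[r] := List.IsPrefix.getElem hj0 hrl
          have e2 : l[r] = (a j)[r]'(lt_of_lt_of_le hrl (List.IsPrefix.length_le hj)) :=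
            List.IsPrefix.getElem hj hrl
          have e3 := (haT j).2 r (lt_of_lt_of_le hrl (List.IsPrefix.length_le hj))
          rw [← e2, e1] at e3
          omega
        obtain ⟨t, ht⟩ := (hj : l <+: a j)
        cases t with
        | nil =>
          rw [List.append_nil] at ht
          exact absurd (haT j) (by rw [← ht]; exact hex j l (by rw [ht]; exact haW j) hlt.2)
        | cons v t =>
          have hv : v ≤ φ j l.length := by
            have hlen : l.length < (a j).length := by rw [← ht]; simp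
            have := (haT j).2 l.length hlen
            have e : (a j)[l.length] = v := by simp [← ht]
            rwa [e] at this
          have h5 : φ j l.length ≤ φ j r := hφ j hlr
          have h6 : (a j0)[r] ≤ (a j0).sum := List.single_le_sum (by simp) _ (List.getElem_mem hr)
          simp only [Finset.mem_range, mem_iUnion, mem_ofPred_eq]
          exact ⟨v, by omega, ⟨t, by rw [← ht]; simp⟩⟩
    refine Set.Finite.subset (Set.Finite.union (Set.finite_lt_nat _) ?_) hsub
    exact Set.Finite.biUnion (Finset.finite_toSet _) fun v _ => by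
      have := hfin v
      simpa [Set.not_infinite] using this
  choose! nxt hnxt using step
  let L : ℕ → List ℕ := fun k => Nat.rec [] (fun _ l => l ++ [nxt l]) k
  let b : ℕ → ℕ := fun k => nxt (L k)
  have hL : ∀ k, L k = br b k := by
    intro k
    induction k with
    | zero => rfl
    | succ k ih =>
      rw [br_succ, ← ih]
  have hinf : ∀ k, {j | br b k <+: a j}.Infinite := by
    intro k
    induction k with
    | zero =>
      have : {j | br b 0 <+: a j} = Set.univ := by
        ext j; simp [br]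
      rw [this]; exact Set.infinite_univ
    | succ k ih =>
      have := hnxt _ ih
      rw [br_succ]
      change {j | br b k ++ [nxt (L k)] <+: a j}.Infinite
      rw [hL k]
      exact this
  have hTbr : ∀ k j, br b k <+: a j → br b k ∈ T x (φ j) := fun k j h => T_prefix h (haT j)
  have hne : ∀ k, (C x (br b k)).Nonempty := by
    intro k
    obtain ⟨j, hj⟩ := (hinf k).nonempty
    exact (hTbr k j hj).1
  have hnW : ∀ k, ¬ W x g (br b k) := by
    intro k hW
    obtain ⟨j, hj, hj2⟩ := (hinf k).exists_gt (Encodable.encode (br b k))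
    exact hex j _ hW hj2.le (hTbr k j hj)
  obtain ⟨z, hz⟩ := exists_limit hx b hne
  have hcont : ContinuousAt (fun w => |g w|) z := (continuous_abs.comp g.continuous).continuousAt
  have hgt : ∀ t : ℝ, t < |g z| → ∃ k0, ∀ k ≥ k0, ∀ w ∈ C x (br b k), t < |g w| := by
    intro t ht
    obtain ⟨k0, hk0⟩ := hz _ (hcont.eventually (lt_mem_nhds ht))
    exact ⟨k0, fun k hk w hw => hk0 k hk hw⟩
  have hlt : ∀ t : ℝ, |g z| < t → ∃ k0, ∀ k ≥ k0, ∀ w ∈ C x (br b k), |g w| < t := by
    intro t ht
    obtain ⟨k0, hk0⟩ := hz _ (hcont.eventually (gt_mem_nhds ht))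
    exact ⟨k0, fun k hk w hw => hk0 k hk hw⟩
  have hpick : ∀ k, ∃ j, br b k <+: a j := fun k => (hinf k).nonempty
  choose J hJ using hpick
  have hCJ : ∀ {k k' : ℕ}, k ≤ k' → C x (a (J k')) ⊆ C x (br b k) := fun {k k'} h =>
    (C_mono_prefix (hJ k')).trans (C_mono_prefix (br_prefix b h))
  have hmJ : ∀ k, m x (a (J k)) ∈ C x (a (J k)) := fun k => m_mem hx (haT _).1
  by_cases hcase : ∃ i, ∀ k, ∃ k' ≥ k, ∃ s, 1 ≤ i ∧ x s ∈ C x (a (J k')) ∧
      c (i + 1) < |g (x s)| ∧ ∀ e < s, x e ∈ C x ((a (J k')).take i) → 1 < |g (x e)|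
  · obtain ⟨i, hi⟩ := hcase
    have h1 : c (i + 1) ≤ |g z| := by
      by_contra hlt'
      push Not at hlt'
      obtain ⟨k0, hk0⟩ := hlt _ hlt'
      obtain ⟨k', hk', s, _, hs, hs2, _⟩ := hi k0
      have := hk0 k0 le_rfl _ (hCJ hk' hs)
      linarith
    have h2 : c i < |g z| := lt_of_lt_of_le (c_strictMono (Nat.lt_succ_self i)) h1
    obtain ⟨k0, hk0⟩ := hgt _ h2
    obtain ⟨k', hk', s, hi1, hs, hs2, hs3⟩ := hi (max k0 i)
    have hik : i ≤ max k0 i := le_max_right _ _
    refine hnW (max k0 i) (Or.inr ⟨i, s, hi1, by simp, hCJ hk' hs,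
      hk0 _ (le_max_left _ _) _ (m_mem hx (hne _)), hs2, ?_⟩)
    intro e he hxe
    refine hs3 e he ?_
    have e1 : (a (J k')).take i = (br b k').take i :=
      take_eq_of_prefix (hJ k') (by simp only [length_br]; omega)
    rw [e1, br_take b (hik.trans hk')]
    rwa [br_take b hik] at hxe
  · push Not at hcase
    have h2 : 2 ≤ |g z| := by
      by_contra hlt2
      push Not at hlt2
      obtain ⟨I, hI⟩ := exists_c_gt hlt2
      obtain ⟨k0, hk0⟩ := hlt _ hI
      choose kk hkk using hcase
      let N := k0 + ∑ i ∈ Finset.range I, kk i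
      have hN0 : k0 ≤ N := Nat.le_add_right _ _
      have hNi : ∀ i < I, kk i ≤ N := fun i hi =>
        (Finset.single_le_sum (f := kk) (fun _ _ => Nat.zero_le _) (Finset.mem_range.2 hi)).trans
          (Nat.le_add_left _ _)
      have hm := hk0 N hN0 _ (hCJ le_rfl (hmJ N))
      rcases haW (J N) with h | ⟨i, s, hi1, hi2, hs, hs1, hs2, hs3⟩
      · have := c_lt_two I
        linarith
      · have hiI : i < I := c_strictMono.lt_iff_lt.1 (lt_trans hs1 hm)
        obtain ⟨e, he1, he2, he3⟩ := hkk i N (hNi i hiI) s hi1 hs hs2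
        have := hs3 e he1 he2
        linarith
    obtain ⟨i0, hi0⟩ := hgt 1 (by linarith)
    obtain ⟨k0, hk0⟩ := hgt (c (max 1 i0 + 1)) (lt_of_lt_of_le (c_lt_two _) h2)
    have hik : max 1 i0 ≤ max k0 (max 1 i0) := le_max_right _ _
    have hmm := m_mem hx (hne (max k0 (max 1 i0)))
    have hmgt := hk0 _ (le_max_left _ _) _ hmm
    refine hnW (max k0 (max 1 i0)) (Or.inr ⟨max 1 i0, mu x (br b (max k0 (max 1 i0))),
      le_max_left _ _, by simp, hmm, ?_, hmgt, ?_⟩)
    · exact lt_trans (c_strictMono (Nat.lt_succ_self _)) hmgt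
    · intro e _ hxe
      rw [br_take b hik] at hxe
      exact hi0 _ (le_max_right _ _) _ hxe

end Pool.Agent.H51.CK
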