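import Pool.Agent.H51.CK.Regular
import Pool.Agent.H51.CK.Coinit

/-!
# `C(X, ℝ)` is an `M₁`-space for every Polish space `X`
-/

set_option autoImplicit false
open Topology Set Filter TopologicalSpace

namespace Pool.Agent.H51.CK

variable {X : Type*} [MetricSpace X]

/-- Unions of sets `Q x φ` are closed. -/
theorem isClosed_biUnion_Q [CompleteSpace X] {x : ℕ → X} (hx : DenseRange x)
    (Φ : Set (ℕ → ℕ)) (hΦ : ∀ φ ∈ Φ, Monotone φ) : IsClosed (⋃ φ ∈ Φ, Q x φ) := by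
  rw [← isOpen_compl_iff, isOpen_iff_mem_nhds]
  intro g hg
  obtain ⟨F, hF1, hF2⟩ := exists_coinitial hx g
  have hV : (⋂ a ∈ F, {h : C(X, ℝ) | W x h a}) ∈ 𝓝 g := by
    refine (isOpen_biInter_finset fun a _ => isOpen_W x a).mem_nhds ?_
    simpa using hF1
  refine mem_of_superset hV fun h hh => ?_
  simp only [mem_compl_iff, mem_iUnion, not_exists] at hg ⊢
  intro φ hφ hhQ
  have h1 : ∃ a ∈ T x φ, W x g a := by
    by_contra hno
    push Not at hno
    exact hg φ hφ hno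
  obtain ⟨a, haF, haT⟩ := hF2 φ (hΦ φ hφ) h1
  simp only [mem_iInter, mem_ofPred_eq] at hh
  exact hhQ a haT (hh a haF)

theorem isClosed_Q [CompleteSpace X] {x : ℕ → X} (hx : DenseRange x)
    {φ : ℕ → ℕ} (hφ : Monotone φ) : IsClosed (Q x φ) := by
  have := isClosed_biUnion_Q hx {φ} (by simpa using hφ)
  simpa using this

theorem closure_interior_Q [CompleteSpace X] {x : ℕ → X} (hx : DenseRange x)
    {φ : ℕ → ℕ} (hφ : Monotone φ) : closure (interior (Q x φ)) = Q x φ :=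
  Subset.antisymm ((isClosed_Q hx hφ).closure_interior_subset) (Q_subset_closure_interior hx hφ)

theorem abs_le_two_of_mem_Q {x : ℕ → X} {φ : ℕ → ℕ} {g : C(X, ℝ)} (hg : g ∈ Q x φ) {z : X}
    (hz : z ∈ K x φ) : |g z| ≤ 2 := by
  have hcl : IsClosed {w : X | |g w| ≤ 2} := isClosed_le (by fun_prop) continuous_const
  have hsub : m x '' T x φ ⊆ {w : X | |g w| ≤ 2} := by
    rintro _ ⟨a, ha, rfl⟩
    by_contra hlt
    exact hg a ha (Or.inl (not_le.1 hlt))
  exact closure_minimal hsub hcl hz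

theorem mem_Q_of_abs_lt {x : ℕ → X} {φ : ℕ → ℕ} {g : C(X, ℝ)}
    (hg : ∀ z ∈ K x φ, |g z| < 3 / 2) : g ∈ Q x φ := by
  intro a ha hW
  have h1 := hg _ (m_mem_K ha)
  rcases hW with h | ⟨i, s, hi, _, _, h, _⟩
  · linarith
  · have := three_halves_le_c hi
    linarith

/-- The homeomorphism `g ↦ (n+1) (g - β)`. -/
noncomputable def Hm (X : Type*) [TopologicalSpace X] (β : C(X, ℝ)) (n : ℕ) : C(X, ℝ) ≃ₜ C(X, ℝ) :=
  (Homeomorph.addRight (-β)).trans
    (Homeomorph.smulOfNeZero ((n : ℝ) + 1) (by positivity))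

lemma Hm_apply (β g : C(X, ℝ)) (n : ℕ) (z : X) : Hm X β n g z = ((n : ℝ) + 1) * (g z - β z) := by
  simp [Hm]
  ring

theorem main_nonempty (X : Type*) [MetricSpace X] [CompleteSpace X] [SeparableSpace X]
    [Nonempty X] : ∃ B : ℕ → Set (Set C(X, ℝ)), IsTopologicalBasis (⋃ n, B n) ∧
      ∀ n, ∀ 𝒱 ⊆ B n, closure (⋃₀ 𝒱) = ⋃ V ∈ 𝒱, closure V := by
  have : SeparableSpace C(X, ℝ) := separable X
  let x : ℕ → X := denseSeq X
  have hx : DenseRange x := denseRange_denseSeq X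
  let β : ℕ → C(X, ℝ) := denseSeq C(X, ℝ)
  have hβ : DenseRange β := denseRange_denseSeq C(X, ℝ)
  let B : ℕ → Set (Set C(X, ℝ)) := fun k =>
    {V | ∃ φ : ℕ → ℕ, Monotone φ ∧ V = Hm X (β k.unpair.1) k.unpair.2 ⁻¹' interior (Q x φ)}
  refine ⟨B, ?_, ?_⟩
  · refine isTopologicalBasis_of_isOpen_of_nhds ?_ ?_
    · intro V hV
      obtain ⟨k, φ, hφ, rfl⟩ := mem_iUnion.1 hV
      exact isOpen_interior.preimage (Homeomorph.continuous _)
    · intro f U hfU hU
      obtain ⟨L, hL, ε, hε, hsub⟩ := exists_nhd_compact (hU.mem_nhds hfU)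
      obtain ⟨n, hn⟩ := exists_nat_one_div_lt (show (0 : ℝ) < ε / 3 by positivity)
      obtain ⟨φ, hφ, hLφ⟩ := exists_subset_K hx hL
      have hK := isCompact_K hx hφ
      have hn0 : (0 : ℝ) < 1 / ((n : ℝ) + 1) := by positivity
      have hn1 : (0 : ℝ) < (n : ℝ) + 1 := by positivity
      obtain ⟨j, hj⟩ := hβ.exists_mem_open isOpen_interior
        ⟨f, mem_interior_iff_mem_nhds.2 (nhd_compact_mem f hK hn0)⟩
      have hj' : ∀ z ∈ K x φ, |β j z - f z| < 1 / ((n : ℝ) + 1) := fun z hz =>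
        interior_subset hj z hz
      refine ⟨Hm X (β j) n ⁻¹' interior (Q x φ), mem_iUnion.2 ⟨Nat.pair j n, φ, hφ, by simp⟩,
        ?_, ?_⟩
      · rw [mem_preimage, mem_interior_iff_mem_nhds]
        refine mem_of_superset (nhd_compact_mem _ hK (show (0 : ℝ) < 1 / 2 by norm_num)) ?_
        intro h hh
        refine mem_Q_of_abs_lt fun z hz => ?_
        have h1 := hh z hz
        have h2 := hj' z hz
        rw [Hm_apply] at h1
        have h3 : |((n : ℝ) + 1) * (f z - β j z)| < 1 := by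
          rw [abs_mul, abs_of_pos hn1, abs_sub_comm]
          rw [lt_div_iff₀ hn1] at h2
          linarith
        have h4 := abs_sub_abs_le_abs_sub (h z) (((n : ℝ) + 1) * (f z - β j z))
        linarith
      · intro h hh
        refine hsub fun z hz => ?_
        have hzK := hLφ hz
        have h1 := abs_le_two_of_mem_Q (interior_subset hh) hzK
        have h2 := hj' z hzK
        rw [Hm_apply, abs_mul, abs_of_pos hn1] at h1
        have h3 : |h z - β j z| ≤ 2 / ((n : ℝ) + 1) := by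
          rw [le_div_iff₀ hn1]; linarith
        have h4 := abs_sub_le (h z) (β j z) (f z)
        have h5 : 2 / ((n : ℝ) + 1) + 1 / ((n : ℝ) + 1) < ε := by
          have : 2 / ((n : ℝ) + 1) = 2 * (1 / ((n : ℝ) + 1)) := by ring
          rw [this]; linarith
        linarith
  · intro k 𝒱 h𝒱
    refine Subset.antisymm ?_ (iUnion₂_subset fun V hV => closure_mono (subset_sUnion_of_mem hV))
    set H := Hm X (β k.unpair.1) k.unpair.2 with hH
    let Φ : Set (ℕ → ℕ) := {φ | Monotone φ ∧ H ⁻¹' interior (Q x φ) ∈ 𝒱}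
    have hcl : IsClosed (H ⁻¹' (⋃ φ ∈ Φ, Q x φ)) :=
      (isClosed_biUnion_Q hx Φ fun φ hφ => hφ.1).preimage H.continuous
    have hsub : ⋃₀ 𝒱 ⊆ H ⁻¹' (⋃ φ ∈ Φ, Q x φ) := by
      rintro h ⟨V, hV, hhV⟩
      obtain ⟨φ, hφ, rfl⟩ := h𝒱 hV
      exact mem_preimage.2 (mem_iUnion₂.2 ⟨φ, ⟨hφ, hV⟩, interior_subset hhV⟩)
    refine (closure_minimal hsub hcl).trans ?_
    intro h hh
    obtain ⟨φ, hφ, hhQ⟩ := mem_iUnion₂.1 (mem_preimage.1 hh)
    refine mem_iUnion₂.2 ⟨_, hφ.2, ?_⟩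
    rw [← H.preimage_closure, closure_interior_Q hx hφ.1]
    exact hhQ

theorem main (X : Type*) [TopologicalSpace X] [PolishSpace X] :
    T3Space C(X, ℝ) ∧ ∃ B : ℕ → Set (Set C(X, ℝ)), IsTopologicalBasis (⋃ n, B n) ∧
      ∀ n, ∀ 𝒱 ⊆ B n, closure (⋃₀ 𝒱) = ⋃ V ∈ 𝒱, closure V := by
  refine ⟨inferInstance, ?_⟩
  rcases isEmpty_or_nonempty X with hX | hX
  · have : Subsingleton C(X, ℝ) := ⟨fun f g => ContinuousMap.ext fun z => (hX.false z).elim⟩
    have hopen : ∀ s : Set C(X, ℝ), IsOpen s := fun s => by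
      rcases Set.subsingleton_iff_eq_empty_or_singleton.1 (Set.subsingleton_of_subsingleton (s := s))
        |>.imp id id with h | ⟨f, h⟩
      · rw [h]; exact isOpen_empty
      · rw [h]
        have : ({f} : Set C(X, ℝ)) = Set.univ := by
          ext g; simp [Subsingleton.elim g f]
        rw [this]; exact isOpen_univ
    have : DiscreteTopology C(X, ℝ) := ⟨by
      ext s; exact ⟨fun _ => trivial, fun _ => hopen s⟩⟩
    refine ⟨fun _ => Set.univ, ?_, ?_⟩
    · refine isTopologicalBasis_of_isOpen_of_nhds (fun u _ => hopen u) fun f U hf hU =>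
        ⟨U, mem_iUnion.2 ⟨0, mem_univ _⟩, hf, Subset.rfl⟩
    · intro n 𝒱 _
      simp [sUnion_eq_biUnion]
  · let := upgradeIsCompletelyMetrizable X
    exact main_nonempty X

end Pool.Agent.H51.CK
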