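import Mathlib

/-!
# The function space `C(X, ℝ)` of a Polish space is an `M₁`-space: definitions

`X` is a metric space with a dense sequence `x : ℕ → X`.  Nodes are lists of natural numbers,
`C x a` is the intersection of the balls of radius `2^-k` around `x (a k)`.
-/

set_option autoImplicit false
open Topology Set

namespace Pool.Agent.H51.CK

noncomputable section

variable {X : Type*} [MetricSpace X]

/-- The open set of the node `a`: all `z` with `dist z (x (a k)) < 2^-k` for `k < |a|`. -/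
def C (x : ℕ → X) (a : List ℕ) : Set X :=
  {z | ∀ (k : ℕ) (h : k < a.length), dist z (x a[k]) < (1 / 2 : ℝ) ^ k}

open Classical in
/-- A chosen point of the dense sequence in `C x a` (index). -/
def mu (x : ℕ → X) (a : List ℕ) : ℕ :=
  if h : ∃ j, x j ∈ C x a then Nat.find h else 0

/-- A chosen point of the dense sequence in `C x a`. -/
def m (x : ℕ → X) (a : List ℕ) : X := x (mu x a)

/-- The finitely branching tree of the function `φ`. -/
def T (x : ℕ → X) (φ : ℕ → ℕ) : Set (List ℕ) :=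
  {a | (C x a).Nonempty ∧ ∀ (k : ℕ) (h : k < a.length), a[k] ≤ φ k}

/-- The compact set of the function `φ`. -/
def K (x : ℕ → X) (φ : ℕ → ℕ) : Set X := closure (m x '' T x φ)

/-- The levels `1, 3/2, 7/4, …`. -/
def c (i : ℕ) : ℝ := 2 - (1 / 2 : ℝ) ^ i

/-- The node `a` is a witness for `g`. -/
def W (x : ℕ → X) (g : X → ℝ) (a : List ℕ) : Prop :=
  2 < |g (m x a)| ∨ ∃ i s : ℕ, 1 ≤ i ∧ i ≤ a.length ∧ x s ∈ C x a ∧ c i < |g (m x a)| ∧
    c (i + 1) < |g (x s)| ∧ ∀ e < s, x e ∈ C x (a.take i) → 1 < |g (x e)|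

/-- The closed set of the function `φ`. -/
def Q (x : ℕ → X) (φ : ℕ → ℕ) : Set C(X, ℝ) := {g | ∀ a ∈ T x φ, ¬ W x g a}

/-- The node of length `k` of a branch. -/
def br (b : ℕ → ℕ) (k : ℕ) : List ℕ := (List.range k).map b

/-! ### Levels -/

lemma c_zero : c 0 = 1 := by norm_num [c]
lemma c_one : c 1 = 3 / 2 := by norm_num [c]

lemma c_lt_two (i : ℕ) : c i < 2 := by
  have : (0 : ℝ) < (1 / 2 : ℝ) ^ i := by positivity
  unfold c; linarith

lemma c_strictMono : StrictMono c := by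
  refine strictMono_nat_of_lt_succ fun i => ?_
  have : (0 : ℝ) < (1 / 2 : ℝ) ^ i := by positivity
  unfold c
  rw [pow_succ]
  linarith

lemma one_le_c (i : ℕ) : 1 ≤ c i := by
  have := c_strictMono.monotone (Nat.zero_le i)
  rw [c_zero] at this
  exact this

lemma three_halves_le_c {i : ℕ} (hi : 1 ≤ i) : 3 / 2 ≤ c i := by
  have := c_strictMono.monotone hi
  rw [c_one] at this
  exact this

lemma exists_c_gt {t : ℝ} (ht : t < 2) : ∃ i, t < c i := by
  obtain ⟨i, hi⟩ := exists_pow_lt_of_lt_one (sub_pos.2 ht) (by norm_num : (1 / 2 : ℝ) < 1)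
  exact ⟨i, by unfold c; linarith⟩

/-! ### Nodes -/

lemma isOpen_C (x : ℕ → X) (a : List ℕ) : IsOpen (C x a) := by
  have : C x a = ⋂ k : Fin a.length, Metric.ball (x a[k]) ((1 / 2 : ℝ) ^ (k : ℕ)) := by
    ext z
    simp only [C, mem_ofPred_eq, mem_iInter, Metric.mem_ball]
    exact ⟨fun h k => h k k.2, fun h k hk => h ⟨k, hk⟩⟩
  rw [this]
  exact isOpen_iInter_of_finite fun k => Metric.isOpen_ball

lemma C_mono_prefix {x : ℕ → X} {a b : List ℕ} (h : a <+: b) : C x b ⊆ C x a := by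
  intro z hz k hk
  have := hz k (lt_of_lt_of_le hk h.length_le)
  rwa [← h.getElem hk] at this

open Classical in
lemma m_mem {x : ℕ → X} (hx : DenseRange x) {a : List ℕ} (h : (C x a).Nonempty) :
    m x a ∈ C x a := by
  obtain ⟨j, hj⟩ := hx.exists_mem_open (isOpen_C x a) h
  have h' : ∃ j, x j ∈ C x a := ⟨j, hj⟩
  unfold m mu
  rw [dif_pos h']
  exact Nat.find_spec h'

lemma nonempty_of_mem {x : ℕ → X} {a : List ℕ} {z : X} (h : z ∈ C x a) : (C x a).Nonempty := ⟨z, h⟩

lemma T_prefix {x : ℕ → X} {φ : ℕ → ℕ} {a b : List ℕ} (h : a <+: b) (hb : b ∈ T x φ) :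
    a ∈ T x φ := by
  refine ⟨hb.1.mono (C_mono_prefix h), fun k hk => ?_⟩
  have := hb.2 k (lt_of_lt_of_le hk h.length_le)
  rwa [← h.getElem hk] at this

lemma m_mem_K {x : ℕ → X} {φ : ℕ → ℕ} {a : List ℕ} (h : a ∈ T x φ) : m x a ∈ K x φ :=
  subset_closure (mem_image_of_mem _ h)

/-! ### Branches -/

@[simp] lemma length_br (b : ℕ → ℕ) (k : ℕ) : (br b k).length = k := by simp [br]

lemma getElem_br (b : ℕ → ℕ) (k i : ℕ) (h : i < (br b k).length) : (br b k)[i] = b i := by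
  simp [br]

lemma br_take (b : ℕ → ℕ) {i k : ℕ} (h : i ≤ k) : (br b k).take i = br b i := by
  apply List.ext_getElem
  · simp [h]
  · intro n h1 h2
    simp [br]

lemma br_prefix (b : ℕ → ℕ) {i k : ℕ} (h : i ≤ k) : br b i <+: br b k := by
  rw [← br_take b h]
  exact List.take_prefix _ _

/-- The sets `{g | a is a witness for g}` are open. -/
lemma isOpen_W (x : ℕ → X) (a : List ℕ) : IsOpen {g : C(X, ℝ) | W x g a} := by
  have hev : ∀ (z : X) (t : ℝ), IsOpen {g : C(X, ℝ) | t < |g z|} := fun z t =>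
    isOpen_lt continuous_const (continuous_abs.comp (continuous_eval_const z))
  have : {g : C(X, ℝ) | W x g a} = {g : C(X, ℝ) | 2 < |g (m x a)|} ∪
      ⋃ i : ℕ, ⋃ s : ℕ, ⋃ (_ : 1 ≤ i ∧ i ≤ a.length ∧ x s ∈ C x a),
        ({g : C(X, ℝ) | c i < |g (m x a)|} ∩ {g : C(X, ℝ) | c (i + 1) < |g (x s)|} ∩
          ⋂ e ∈ Finset.range s, ⋂ (_ : x e ∈ C x (a.take i)), {g : C(X, ℝ) | 1 < |g (x e)|}) := by
    ext g
    simp only [W, mem_ofPred_eq, mem_union, mem_iUnion, mem_inter_iff, mem_iInter,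
      Finset.mem_range]
    constructor
    · rintro (h | ⟨i, s, h1, h2, h3, h4, h5, h6⟩)
      · exact Or.inl h
      · exact Or.inr ⟨i, s, ⟨h1, h2, h3⟩, ⟨h4, h5⟩, h6⟩
    · rintro (h | ⟨i, s, ⟨h1, h2, h3⟩, ⟨h4, h5⟩, h6⟩)
      · exact Or.inl h
      · exact Or.inr ⟨i, s, h1, h2, h3, h4, h5, h6⟩
  rw [this]
  refine (hev _ _).union (isOpen_iUnion fun i => isOpen_iUnion fun s => isOpen_iUnion fun _ => ?_)
  refine ((hev _ _).inter (hev _ _)).inter ?_
  refine isOpen_biInter_finset fun e _ => isOpen_iInter_of_finite fun _ => hev _ _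

end

end Pool.Agent.H51.CK
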