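import Pool.Agent.H51.CK.Basic

/-!
# [H51 CK Compact] `K x φ` is compact and every compact set is contained in one of them

`isCompact_K`.  `K x φ` is closed in a complete space, so it suffices that `m x '' T x φ` is totally
bounded (`isCompact_of_totallyBounded_isClosed`, `TotallyBounded.closure`).  Given `ε > 0` take `n`
with `(1/2)^n < ε` (`exists_pow_lt_of_lt_one`).  A node `a ∈ T x φ` with `n < a.length` has
`m x a ∈ C x a` (`m_mem`), so `dist (m x a) (x a[n]) < (1/2)^n < ε` and `a[n] ≤ φ n`.  There are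
only finitely many `a ∈ T x φ` with `a.length ≤ n`: their entries are `≤ φ n` by monotonicity, so
they lie in the image under `List.map Fin.val` of `{l : List (Fin (φ n + 1)) | l.length ≤ n}`
(`List.finite_length_le`).  So the finite set
`m x '' {a ∈ T x φ | a.length ≤ n} ∪ x '' Set.Iic (φ n)` is an `ε`-net
(`Metric.totallyBounded_iff`).

`exists_subset_K`.  For each `n` the balls `Metric.ball (x i) ((1/2)^n)` cover `X` (dense range), so
finitely many of them cover `L` (`IsCompact.elim_finite_subcover`); take `φ₀ n` with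
`L ⊆ ⋃ i ≤ φ₀ n, ball (x i) ((1/2)^n)` and `φ n = ∑ j ∈ range (n+1), φ₀ j` (or a maximum), which is
monotone and `≥ φ₀ n`.  For `z ∈ L` choose `b : ℕ → ℕ` with `b n ≤ φ₀ n`, `dist z (x (b n)) < (1/2)^n`.
Then `br b k ∈ T x φ` (`z ∈ C x (br b k)`), `m x (br b (k+1)) ∈ C x (br b (k+1))`, hence
`dist (m x (br b (k+1))) z < 2 * (1/2)^k`, so `z` is in the closure (`Metric.mem_closure_iff`).
-/

set_option autoImplicit false
open Topology Set

namespace Pool.Agent.H51.CK

variable {X : Type*} [MetricSpace X]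

theorem finite_short {x : ℕ → X} {φ : ℕ → ℕ} (hφ : Monotone φ) (n : ℕ) :
    {a | a ∈ T x φ ∧ a.length ≤ n}.Finite := by
  refine ((List.finite_length_le (Fin (φ n + 1)) n).image (List.map Fin.val)).subset ?_
  rintro a ⟨haT, han⟩
  have hb : ∀ (k : ℕ) (hk : k < a.length), a[k] < φ n + 1 := fun k hk =>
    Nat.lt_succ_of_le ((haT.2 k hk).trans (hφ (hk.le.trans han)))
  refine ⟨List.ofFn (fun k : Fin a.length => (⟨a[(k : ℕ)], hb k k.2⟩ : Fin (φ n + 1))), ?_, ?_⟩
  · change (List.ofFn _).length ≤ n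
    rw [List.length_ofFn]
    exact han
  · apply List.ext_getElem
    · simp
    · intro k h1 h2
      simp

theorem isCompact_K [CompleteSpace X] {x : ℕ → X} (hx : DenseRange x) {φ : ℕ → ℕ}
    (hφ : Monotone φ) : IsCompact (K x φ) := by
  rw [isCompact_iff_totallyBounded_isComplete]
  refine ⟨TotallyBounded.closure (Metric.totallyBounded_iff.2 ?_), isClosed_closure.isComplete⟩
  intro ε hε
  obtain ⟨n, hn⟩ := exists_pow_lt_of_lt_one hε (by norm_num : (1 / 2 : ℝ) < 1)
  refine ⟨m x '' {a | a ∈ T x φ ∧ a.length ≤ n} ∪ x '' Set.Iic (φ n),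
    ((finite_short hφ n).image _).union ((Set.finite_Iic _).image _), ?_⟩
  rintro _ ⟨a, haT, rfl⟩
  rw [mem_iUnion₂]
  rcases le_or_gt a.length n with h | h
  · exact ⟨m x a, Or.inl ⟨a, ⟨haT, h⟩, rfl⟩, Metric.mem_ball_self hε⟩
  · refine ⟨x a[n], Or.inr ⟨a[n], haT.2 n h, rfl⟩, ?_⟩
    rw [Metric.mem_ball]
    exact lt_trans (m_mem hx haT.1 n h) hn

theorem exists_subset_K {x : ℕ → X} (hx : DenseRange x) {L : Set X} (hL : IsCompact L) :
    ∃ φ : ℕ → ℕ, Monotone φ ∧ L ⊆ K x φ := by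
  have h1 : ∀ n : ℕ, ∃ N : ℕ, ∀ z ∈ L, ∃ i ≤ N, dist z (x i) < (1 / 2 : ℝ) ^ n := by
    intro n
    have hpos : (0 : ℝ) < (1 / 2 : ℝ) ^ n := by positivity
    obtain ⟨t, ht⟩ := hL.elim_finite_subcover (fun i => Metric.ball (x i) ((1 / 2 : ℝ) ^ n))
      (fun i => Metric.isOpen_ball) (by
        intro z _
        obtain ⟨i, hi⟩ := hx.exists_mem_open (Metric.isOpen_ball (x := z) (ε := (1 / 2 : ℝ) ^ n))
          ⟨z, Metric.mem_ball_self hpos⟩
        rw [mem_iUnion]
        exact ⟨i, by rw [Metric.mem_ball, dist_comm]; exact hi⟩)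
    refine ⟨t.sup id, fun z hz => ?_⟩
    obtain ⟨i, hi, hzi⟩ := mem_iUnion₂.1 (ht hz)
    exact ⟨i, Finset.le_sup (f := id) hi, hzi⟩
  choose φ₀ hφ₀ using h1
  refine ⟨fun n => ∑ j ∈ Finset.range (n + 1), φ₀ j, ?_, ?_⟩
  · intro a b hab
    exact Finset.sum_le_sum_of_subset (Finset.range_mono (Nat.succ_le_succ hab))
  · intro z hz
    choose b hb hbd using fun n => hφ₀ n z hz
    have hzC : ∀ k, z ∈ C x (br b k) := by
      intro k i hi
      rw [getElem_br]
      exact hbd i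
    have hT : ∀ k, br b k ∈ T x (fun n => ∑ j ∈ Finset.range (n + 1), φ₀ j) := by
      intro k
      refine ⟨⟨z, hzC k⟩, fun i hi => ?_⟩
      rw [getElem_br]
      exact (hb i).trans (Finset.single_le_sum (f := φ₀) (fun _ _ => Nat.zero_le _)
        (Finset.mem_range.2 (Nat.lt_succ_self i)))
    rw [K, Metric.mem_closure_iff]
    intro ε hε
    obtain ⟨n, hn⟩ := exists_pow_lt_of_lt_one (half_pos hε) (by norm_num : (1 / 2 : ℝ) < 1)
    refine ⟨m x (br b (n + 1)), mem_image_of_mem _ (hT (n + 1)), ?_⟩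
    have h2 := m_mem hx ⟨z, hzC (n + 1)⟩ n (by simp)
    have h3 := hzC (n + 1) n (by simp)
    rw [getElem_br] at h2 h3
    calc dist z (m x (br b (n + 1))) ≤ dist z (x (b n)) + dist (m x (br b (n + 1))) (x (b n)) :=
          dist_triangle_right _ _ _
      _ < ε / 2 + ε / 2 := add_lt_add (h3.trans hn) (h2.trans hn)
      _ = ε := add_halves ε

end Pool.Agent.H51.CK
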