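import Mathlib

/-!
# [H51 CK Sep] `C(X, ℝ)` (compact-open topology) is separable for `X` separable metrizable

Standalone module.  `exists_nhd_compact`: a basic neighbourhood in the compact-open topology
contains a set `{h | ∀ z ∈ L, |h z - f z| < ε}`.  (Use
`ContinuousMap.tendsto_iff_forall_isCompact_tendstoUniformlyOn` or
`ContinuousMap.hasBasis_nhds` / `ContinuousMap.hasBasis_compactConvergenceUniformity`,
`ContinuousMap.compactConvergence...` in `Mathlib/Topology/UniformSpace/CompactConvergence.lean`;
the entourages of `ℝ` contain `{p | dist p.1 p.2 < ε}`.)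
`nhd_compact_mem`: conversely this set is a neighbourhood of `f`.

`separable`: let `e : X → (ℕ → unitInterval)` be an embedding
(`Metric.PiNatEmbed.exists_embedding_to_hilbert_cube`).  The map `β ↦ β.comp ⟨e, _⟩`,
`C(ℕ → unitInterval, ℝ) → C(X, ℝ)` is continuous (`ContinuousMap.continuous_precomp`) and
`C(ℕ → unitInterval, ℝ)` is separable (instance `ContinuousMap.instSeparableSpace`, compact second
countable domain).  It has dense range: given `f`, `L` compact, `ε`, the map
`L → (ℕ → unitInterval)`, `z ↦ e z` is a closed embedding (`L` compact, injective continuous,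
`Continuous.isClosedEmbedding`), so `f` restricted to `L` extends to `β : C(ℕ → unitInterval, ℝ)` by
Tietze (`ContinuousMap.exists_extension`), and `β.comp e` agrees with `f` on `L`.
Finish with `DenseRange.separableSpace`.
-/

set_option autoImplicit false
open Topology Set

namespace Pool.Agent.H51.CK

theorem nhds_basis_compact {X : Type*} [TopologicalSpace X] (f : C(X, ℝ)) :
    (𝓝 f).HasBasis (fun p : Set X × ℝ => IsCompact p.1 ∧ 0 < p.2)
      (fun p => {h : C(X, ℝ) | ∀ z ∈ p.1, |h z - f z| < p.2}) := by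
  have h0 := (Metric.uniformity_basis_dist (α := ℝ)).compactConvergenceUniformity (α := X)
  have h1 := nhds_basis_uniformity' h0 (x := f)
  refine h1.to_hasBasis (fun p hp => ⟨p, hp, ?_⟩) (fun p hp => ⟨p, hp, ?_⟩)
  · intro h hh z hz
    have := hh z hz
    rw [← Real.dist_eq, dist_comm] at this
    exact this
  · intro h hh z hz
    have := hh z hz
    rw [← Real.dist_eq, dist_comm]
    exact this

theorem exists_nhd_compact {X : Type*} [TopologicalSpace X] {f : C(X, ℝ)} {U : Set C(X, ℝ)}
    (hU : U ∈ 𝓝 f) :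
    ∃ L : Set X, IsCompact L ∧ ∃ ε : ℝ, 0 < ε ∧ {h : C(X, ℝ) | ∀ z ∈ L, |h z - f z| < ε} ⊆ U := by
  obtain ⟨p, hp, hpU⟩ := (nhds_basis_compact f).mem_iff.1 hU
  exact ⟨p.1, hp.1, p.2, hp.2, hpU⟩

theorem nhd_compact_mem {X : Type*} [TopologicalSpace X] (f : C(X, ℝ)) {L : Set X}
    (hL : IsCompact L) {ε : ℝ} (hε : 0 < ε) : {h : C(X, ℝ) | ∀ z ∈ L, |h z - f z| < ε} ∈ 𝓝 f :=
  (nhds_basis_compact f).mem_of_mem (i := (L, ε)) ⟨hL, hε⟩

theorem separable (X : Type*) [TopologicalSpace X] [TopologicalSpace.MetrizableSpace X]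
    [TopologicalSpace.SeparableSpace X] : TopologicalSpace.SeparableSpace C(X, ℝ) := by
  let _ : MetricSpace X := TopologicalSpace.metrizableSpaceMetric X
  obtain ⟨e, he⟩ := Metric.PiNatEmbed.exists_embedding_to_hilbert_cube (X := X)
  let E : C(X, ℕ → unitInterval) := ⟨e, he.continuous⟩
  have hcont : Continuous (fun β : C(ℕ → unitInterval, ℝ) => β.comp E) :=
    ContinuousMap.continuous_precomp E
  have hdense : DenseRange (fun β : C(ℕ → unitInterval, ℝ) => β.comp E) := by
    intro f
    rw [mem_closure_iff_nhds]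
    intro U hU
    obtain ⟨L, hL, ε, hε, hLU⟩ := exists_nhd_compact hU
    have : CompactSpace L := isCompact_iff_compactSpace.mp hL
    have hcl : IsClosedEmbedding (fun z : L => e z) :=
      (he.continuous.comp continuous_subtype_val).isClosedEmbedding
        (he.injective.comp Subtype.val_injective)
    obtain ⟨β, hβ⟩ := ContinuousMap.exists_extension' hcl (f.restrict L)
    refine ⟨β.comp E, hLU ?_, ⟨β, rfl⟩⟩
    intro z hz
    have h1 : β (e z) = f z := congrFun hβ ⟨z, hz⟩
    have h2 : (β.comp E) z = f z := h1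
    rw [h2, sub_self, abs_zero]
    exact hε
  exact hdense.separableSpace hcont

end Pool.Agent.H51.CK
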