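import Pool.Agent.H51.CK.Compact
import Pool.Agent.H51.CK.Sep

/-!
# [H51 CK Regular] `Q x φ` is the closure of its interior

Let `g ∈ Q x φ`.  By `mem_closure_iff_nhds` and `exists_nhd_compact` it suffices, for `L` compact and
`0 < ε`, to find `b ∈ interior (Q x φ)` with `|b z - g z| < ε` on `L`; enlarging `L` (union with the
compact `K x φ`) and decreasing `ε` we may assume `K x φ ⊆ L`.  Put `δ = min (ε/2) (1/2)`, choose `I`
with `2 - δ/2 < c I` (`exists_c_gt`).

Finitely many bad nodes: `P = {p ∈ T x φ | p.length ≤ I ∧ ∃ e, x e ∈ C x p ∧ x e ∉ L}` is finite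
(lists of length `≤ I` with entries `≤ φ I`, see Compact; or use only the finiteness lemma
`finite_T_le` below).  For `p ∈ P` choose `E p` with `x (E p) ∈ C x p`, `x (E p) ∉ L`.  Let
`S = {x (E p) : p ∈ P}` (finite, disjoint from `L`), `M` an upper bound of the `E p`, and
`u : C(X, ℝ)` with `u = 1` on `L`, `u = 0` on `S`, `0 ≤ u ≤ 1` (Urysohn,
`exists_continuous_zero_one_of_isClosed`).

`b z = u z * (g z - max (-δ) (min δ (g z)))`.  Facts: on `L`, `|b z - g z| ≤ δ < ε`; everywhere,
`|b z| ≤ max (|g z| - δ) 0`; so if `0 < |b z|` then `|b z| + δ ≤ |g z|`; `b = 0` on `S`.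

Claim: every `h` with `|h z - b z| < δ/2` on `L' = L ∪ S ∪ {x s : s ≤ M}` (compact) is in `Q x φ`;
so `b ∈ interior (Q x φ)` by `nhd_compact_mem`.  Let `a ∈ T x φ`, `W x h a`; `m x a ∈ K x φ ⊆ L`.
As `g ∈ Q x φ`, `|g (m x a)| ≤ 2`, so `|h (m x a)| < max (2 - δ) 0 + δ/2 = 2 - δ/2`: the first
alternative of `W` fails.  Second alternative with `i, s`: `c i < |h (m x a)| < 2 - δ/2 < c I`, so
`i < I` (`c_strictMono.lt_iff_lt`).  Let `p = a.take i ∈ T x φ` (`T_prefix`, `List.take_prefix`),
`p.length = i ≤ I`.  If `p ∈ P`: `|h (x (E p))| < δ/2 ≤ 1`, so by the last clause of `W`, `E p < s`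
is impossible: `s ≤ E p ≤ M`, hence `x s` and all `x e`, `e < s`, are in `L'`.  If `p ∉ P`: every
`x e ∈ C x p` is in `L`; `x s ∈ C x a ⊆ C x p` (`C_mono_prefix`).  In both cases `|h z - b z| < δ/2`
at `z = m x a`, `z = x s` and `z = x e` (`e < s`, `x e ∈ C x p`), where `|h z|` is `> c i ≥ 1`,
`> c (i+1)`, `> 1`: so `|b z| > 0` and `|g z| ≥ |b z| + δ > |h z|`.  Hence `W x g a` (same `i, s`),
contradicting `g ∈ Q x φ`.
-/

set_option autoImplicit false
open Topology Set

namespace Pool.Agent.H51.CK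

variable {X : Type*} [MetricSpace X]

theorem finite_T_le (x : ℕ → X) {φ : ℕ → ℕ} (hφ : Monotone φ) (n : ℕ) :
    {a | a ∈ T x φ ∧ a.length ≤ n}.Finite := by
  have h1 : {l : List (Fin (φ n + 1)) | l.length ≤ n}.Finite := List.finite_length_le _ n
  refine (h1.image (List.map Fin.val)).subset ?_
  rintro a ⟨ha, hn⟩
  have hle : ∀ v ∈ a, v ≤ φ n := by
    intro v hv
    obtain ⟨k, hk, rfl⟩ := List.mem_iff_getElem.1 hv
    exact (ha.2 k hk).trans (hφ (by omega))
  refine ⟨a.map (fun v => (⟨min v (φ n), by omega⟩ : Fin (φ n + 1))), ?_, ?_⟩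
  · show (a.map _).length ≤ n
    rw [List.length_map]
    exact hn
  · rw [List.map_map]
    conv_rhs => rw [← List.map_id a]
    refine List.map_congr_left fun v hv => ?_
    exact min_eq_left (hle v hv)

/-- soft threshold -/
private noncomputable def sth (δ t : ℝ) : ℝ := t - max (-δ) (min δ t)

private lemma sth_sub (δ t : ℝ) (hδ : 0 < δ) : |sth δ t - t| ≤ δ := by
  unfold sth
  rw [abs_le]
  rcases le_total δ t with h | h
  · rw [min_eq_left h, max_eq_right (by linarith)]
    constructor <;> linarith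
  · rw [min_eq_right h]
    rcases le_total (-δ) t with h' | h'
    · rw [max_eq_right h']
      constructor <;> linarith
    · rw [max_eq_left h']
      constructor <;> linarith

private lemma sth_abs (δ t : ℝ) (hδ : 0 < δ) : |sth δ t| = max (|t| - δ) 0 := by
  unfold sth
  rcases le_total δ t with h | h
  · rw [min_eq_left h, max_eq_right (by linarith), abs_of_nonneg (by linarith : (0 : ℝ) ≤ t - δ),
      abs_of_nonneg (by linarith : (0 : ℝ) ≤ t), max_eq_left (by linarith)]
  · rw [min_eq_right h]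
    rcases le_total (-δ) t with h' | h'
    · rw [max_eq_right h', sub_self, abs_zero, max_eq_right]
      have := abs_le.2 ⟨h', h⟩
      linarith
    · rw [max_eq_left h', abs_of_nonpos (by linarith : t - -δ ≤ 0),
        abs_of_nonpos (by linarith : t ≤ 0), max_eq_left (by linarith)]
      ring

theorem Q_subset_closure_interior [CompleteSpace X] {x : ℕ → X} (hx : DenseRange x)
    {φ : ℕ → ℕ} (hφ : Monotone φ) : Q x φ ⊆ closure (interior (Q x φ)) := by
  classical
  intro g hg
  rw [mem_closure_iff_nhds]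
  intro U hU
  obtain ⟨L0, hL0, ε, hε, hLU⟩ := exists_nhd_compact hU
  obtain ⟨L, hLdef⟩ : ∃ L, L = L0 ∪ K x φ := ⟨_, rfl⟩
  have hL : IsCompact L := by
    rw [hLdef]
    exact hL0.union (isCompact_K hx hφ)
  have hKL : K x φ ⊆ L := by
    rw [hLdef]
    exact subset_union_right
  obtain ⟨δ, hδ⟩ : ∃ δ : ℝ, δ = min (ε / 2) (1 / 2) := ⟨_, rfl⟩
  have hδ0 : 0 < δ := by
    rw [hδ]
    positivity
  have hδε : δ < ε := by
    have := min_le_left (ε / 2) (1 / 2 : ℝ)
    rw [← hδ] at this
    linarith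
  have hδ2 : δ ≤ 1 / 2 := by
    rw [hδ]
    exact min_le_right _ _
  obtain ⟨I, hI⟩ := exists_c_gt (show 2 - δ / 2 < 2 by linarith)
  obtain ⟨P, hP⟩ : ∃ P : Set (List ℕ), P = {p | (p ∈ T x φ ∧ p.length ≤ I) ∧
    ∃ e, x e ∈ C x p ∧ x e ∉ L} := ⟨_, rfl⟩
  have hPfin : P.Finite := by
    rw [hP]
    exact (finite_T_le x hφ I).subset fun p hp => hp.1
  have hE : ∀ p : List ℕ, ∃ e : ℕ, p ∈ P → x e ∈ C x p ∧ x e ∉ L := by
    intro p
    by_cases h : p ∈ P
    · have h' := h
      rw [hP] at h'
      obtain ⟨-, e, he⟩ := h'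
      exact ⟨e, fun _ => he⟩
    · exact ⟨0, fun h' => absurd h' h⟩
  choose E hE using hE
  obtain ⟨S, hS⟩ : ∃ S : Set X, S = (fun p => x (E p)) '' P := ⟨_, rfl⟩
  have hSfin : S.Finite := by
    rw [hS]
    exact hPfin.image _
  obtain ⟨M, hM⟩ : ∃ M : ℕ, ∀ p ∈ P, E p ≤ M := by
    obtain ⟨M, hM⟩ := (hPfin.image E).bddAbove
    exact ⟨M, fun p hp => hM (mem_image_of_mem _ hp)⟩
  have hdisj : Disjoint S L := by
    rw [Set.disjoint_left]
    intro z hz hzL
    rw [hS] at hz
    obtain ⟨p, hp, rfl⟩ := hz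
    exact (hE p hp).2 hzL
  obtain ⟨u, hu0, hu1, hu01⟩ := exists_continuous_zero_one_of_isClosed hSfin.isClosed
    hL.isClosed hdisj
  obtain ⟨b, hb⟩ : ∃ b : C(X, ℝ), ∀ z, b z = u z * sth δ (g z) := by
    refine ⟨⟨fun z => u z * sth δ (g z), ?_⟩, fun z => rfl⟩
    unfold sth
    have h1 := u.continuous
    have h2 := g.continuous
    fun_prop
  have hbL : ∀ z ∈ L, |b z - g z| ≤ δ := by
    intro z hz
    rw [hb, hu1 hz]
    simp only [Pi.one_apply, one_mul]
    exact sth_sub δ _ hδ0
  have hbabs : ∀ z, |b z| ≤ max (|g z| - δ) 0 := by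
    intro z
    rw [hb, abs_mul, sth_abs δ _ hδ0, abs_of_nonneg (hu01 z).1]
    have h1 : (0 : ℝ) ≤ max (|g z| - δ) 0 := le_max_right _ _
    calc u z * max (|g z| - δ) 0 ≤ 1 * max (|g z| - δ) 0 :=
          mul_le_mul_of_nonneg_right (hu01 z).2 h1
      _ = _ := one_mul _
  have hbpos : ∀ z, 0 < |b z| → |b z| + δ ≤ |g z| := by
    intro z hz
    have h1 := hbabs z
    rcases le_total (|g z| - δ) 0 with h2 | h2
    · rw [max_eq_right h2] at h1
      linarith
    · rw [max_eq_left h2] at h1
      linarith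
  have hbS : ∀ z ∈ S, b z = 0 := by
    intro z hz
    rw [hb, hu0 hz]
    simp
  obtain ⟨L', hL'⟩ : ∃ L' : Set X, L' = L ∪ S ∪ x '' Set.Iic M := ⟨_, rfl⟩
  have hL'c : IsCompact L' := by
    rw [hL']
    exact (hL.union hSfin.isCompact).union ((Set.finite_Iic M).image x).isCompact
  have hsub : {h : C(X, ℝ) | ∀ z ∈ L', |h z - b z| < δ / 2} ⊆ Q x φ := by
    intro h hh a ha hW
    have hma : m x a ∈ L := hKL (m_mem_K ha)
    have hLL' : L ⊆ L' := by
      rw [hL']
      exact fun z hz => Or.inl (Or.inl hz)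
    have hSL' : S ⊆ L' := by
      rw [hL']
      exact fun z hz => Or.inl (Or.inr hz)
    have hML' : ∀ e ≤ M, x e ∈ L' := by
      intro e he
      rw [hL']
      exact Or.inr ⟨e, he, rfl⟩
    have hg2 : |g (m x a)| ≤ 2 := by
      by_contra hcon
      push Not at hcon
      exact hg a ha (Or.inl hcon)
    have hhm : |h (m x a)| < 2 - δ / 2 := by
      have h1 := hbabs (m x a)
      have h2 : max (|g (m x a)| - δ) 0 ≤ 2 - δ := max_le (by linarith) (by linarith)
      have h3 := hh (m x a) (hLL' hma)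
      have h4 : |h (m x a)| ≤ |h (m x a) - b (m x a)| + |b (m x a)| := by
        have := abs_add_le (h (m x a) - b (m x a)) (b (m x a))
        rwa [sub_add_cancel] at this
      linarith
    have hcmp : ∀ z ∈ L', 1 < |h z| → |h z| < |g z| := by
      intro z hz hz1
      have h3 := hh z hz
      have h4 : |h z| ≤ |h z - b z| + |b z| := by
        have := abs_add_le (h z - b z) (b z)
        rwa [sub_add_cancel] at this
      have h5 := hbpos z (by linarith)
      linarith
    rcases hW with hW | ⟨i, s, hi1, hia, hxs, hci, hcs, hlast⟩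
    · linarith
    · have hiI : i < I := by
        rw [← c_strictMono.lt_iff_lt]
        linarith
      have hpT : a.take i ∈ T x φ := T_prefix (List.take_prefix i a) ha
      have hplen : (a.take i).length ≤ I := by
        rw [List.length_take]
        omega
      have hxsp : x s ∈ C x (a.take i) := C_mono_prefix (List.take_prefix i a) hxs
      have hall : x s ∈ L' ∧ ∀ e < s, x e ∈ C x (a.take i) → x e ∈ L' := by
        by_cases hp : a.take i ∈ P
        · have h1 : x (E (a.take i)) ∈ S := by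
            rw [hS]
            exact mem_image_of_mem _ hp
          have h2 := hh _ (hSL' h1)
          rw [hbS _ h1, sub_zero] at h2
          have h3 : s ≤ E (a.take i) := by
            by_contra hcon
            push Not at hcon
            have h4 := hlast _ hcon (hE _ hp).1
            linarith
          have h4 : s ≤ M := h3.trans (hM _ hp)
          exact ⟨hML' s h4, fun e he _ => hML' e (by omega)⟩
        · have h1 : ∀ e, x e ∈ C x (a.take i) → x e ∈ L := by
            intro e he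
            by_contra hcon
            apply hp
            rw [hP]
            exact ⟨⟨hpT, hplen⟩, e, he, hcon⟩
          exact ⟨hLL' (h1 s hxsp), fun e _ he => hLL' (h1 e he)⟩
      apply hg a ha
      refine Or.inr ⟨i, s, hi1, hia, hxs, ?_, ?_, ?_⟩
      · exact hci.trans (hcmp _ (hLL' hma) ((one_le_c i).trans_lt hci))
      · exact hcs.trans (hcmp _ hall.1 ((one_le_c _).trans_lt hcs))
      · intro e he hxe
        have h1 := hlast e he hxe
        exact h1.trans (hcmp _ (hall.2 e he hxe) h1)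
  refine ⟨b, hLU ?_, ?_⟩
  · intro z hz
    have h1 := hbL z (by rw [hLdef]; exact Or.inl hz)
    exact lt_of_le_of_lt h1 hδε
  · rw [mem_interior_iff_mem_nhds]
    exact Filter.mem_of_superset (nhd_compact_mem b hL'c (by positivity)) hsub

end Pool.Agent.H51.CK
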